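import Mathlib
import Pool.Agent.H35.LoopSO3.Defs
import Pool.Agent.H35.LoopSO3.Main

/-!
# The cubic relations (R), with unrestricted constants, imply that the subalgebra is factoring
-/

namespace Pool.Agent.Results.MP_1e3651_al.CubicImpliesFactoring

open Pool.Agent.H35.LoopSO3

/-- If `E_1, E_2, E_3 ∈ so_3((λ))` with `E_i - e_i/λ ∈ so_3[[λ]]` satisfy the relations (R) for
some constant matrices `A, B, C, D`, then the Lie subalgebra they generate is factoring. -/
theorem result (E : Fin 3 → Loop) (hE : ∀ i, E i - eOver i ∈ taylor) (hR : RelR E) :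
    IsFactoring (LieSubalgebra.lieSpan ℂ Loop (Set.range E)) :=
  isFactoring_of_relR E hE hR

end Pool.Agent.Results.MP_1e3651_al.CubicImpliesFactoring
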